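import Pool.Agent.H47.ST.Targets

/-!
# MP_78620a_co: blocks do not matter for the process (row FLT)
-/

set_option autoImplicit false

namespace Pool.Agent.H49.STK

open Finset Pool.Agent.H47.ST

theorem up_append (e : ℕ) (A B : List ℕ) : ∀ h : ℕ,
    up e h (A ++ B) = up e h A ++ up e (top h A) B := by
  induction A with
  | nil => intro h; simp [up, top]
  | cons r A ih =>
    intro h
    simp only [List.cons_append, up, top]
    split_ifs with h1 h2
    · rw [ih (r + 1), max_eq_right (by omega)]; rfl
    · rw [ih (r + 1), max_eq_right (by omega)]; rfl
    · rw [ih h, max_eq_left (by omega)]; rfl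

theorem up_length (e : ℕ) (A : List ℕ) : ∀ h : ℕ, (up e h A).length = A.length := by
  induction A with
  | nil => intro h; simp [up]
  | cons r A ih =>
    intro h
    simp only [up]
    split_ifs <;> simp [ih]

theorem top_max (A : List ℕ) : ∀ h k : ℕ, top (max h k) A = max h (top k A) := by
  induction A with
  | nil => intro h k; rfl
  | cons r A ih =>
    intro h k
    simp only [top]
    rw [max_assoc, ih]

theorem top_append (A B : List ℕ) : ∀ h : ℕ, top h (A ++ B) = top (top h A) B := by
  induction A with
  | nil => intro h; rfl
  | cons r A ih => intro h; simp only [List.cons_append, top]; exact ih _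

theorem top_rev (A : List ℕ) : top 0 A.reverse = top 0 A := by
  induction A with
  | nil => rfl
  | cons r A ih =>
    rw [List.reverse_cons, top_append, ih]
    simp only [top]
    rw [Nat.zero_max]
    have h1 := top_max A (r + 1) 0
    rw [Nat.max_zero] at h1
    rw [h1, max_comm]

theorem upR_flatten (e : ℕ) (Bs : List (List ℕ)) : ∀ h : ℕ,
    (upR e h Bs).flatten = up e h Bs.flatten := by
  induction Bs with
  | nil => intro h; simp [upR, up]
  | cons B Bs ih =>
    intro h
    simp only [upR, List.flatten_cons]
    rw [up_append, ih]

theorem upR_length (e : ℕ) (Bs : List (List ℕ)) : ∀ h : ℕ,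
    (upR e h Bs).map List.length = Bs.map List.length := by
  induction Bs with
  | nil => intro h; simp [upR]
  | cons B Bs ih =>
    intro h
    simp only [upR, List.map_cons]
    rw [up_length, ih]

theorem mir_flatten (st : List (List ℕ)) : (mir st).flatten = st.flatten.reverse := by
  unfold mir
  rw [List.reverse_flatten]

theorem mir_length (st : List (List ℕ)) :
    (mir st).map List.length = (st.map List.length).reverse := by
  unfold mir
  rw [List.map_reverse, List.map_map]
  congr 1
  refine List.map_congr_left (fun a _ => ?_)
  simp

theorem pf_FLT : T_FLT := by
  intro Ls X Y Rs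
  constructor
  · unfold place upL ins
    rw [List.flatten_append, List.flatten_cons, mir_flatten, upR_flatten, upR_flatten, mir_flatten,
      List.reverse_append, up_append, up_append, List.reverse_append, top_rev]
    simp only [List.append_assoc, List.cons_append, Nat.sub_self]
  · unfold place upL ins
    rw [List.map_append, List.map_cons, mir_length, upR_length, upR_length, mir_length,
      List.reverse_reverse, List.length_append, List.length_reverse, up_length, List.length_cons,
      up_length, List.length_reverse, Nat.add_assoc]

end Pool.Agent.H49.STK
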